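import Mathlib
import Pool.Agent.H645.Defs2
import Pool.Agent.H645.TG
import Pool.Agent.H645.PD
import Pool.Agent.H645.PE

set_option autoImplicit false

/-!
# Transversals of families of `κ` sets of power `κ`: the question is undecided by ZFC + GCH
-/

namespace Pool.Agent.Results.MP_23241f_lc.Undecided

open Cardinal Pool.Agent.H645.Q
open Pool.Agent.H645.T (HasTransversals Bad AP hasTransversals_iff)
open Pool.Agent.H645 (lamOf IsNormalMeasure)

/-- Assume GCH.
(1) Let `κ` and `lam` be infinite. Every family of `κ` sets of power `κ` with degree of disjunction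
at most `lam` has a `lam⁺`-transversal, unless `κ = η⁺` for some `η > lam` with the cofinality of
`lam` for which `Bad η lam` holds.
(2) `Bad η lam` fails if the set of the points of cofinality `lam⁺` below `η⁺` is in the
approachability ideal.
(3) For every regular `lam` there is a forcing notion all of whose conditions force: GCH holds,
`lam` is regular, and all families of sets of power `κ > lam`, any two of which meet in less than
`lam` points, have `lam⁺`-transversals.
(4) If there is a normal measure on `P_κ(κ^{+ω+1})` for some uncountable `κ`, then there is a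
forcing notion all of whose conditions force: GCH holds, and some family of `ℵ_{ω+1}` sets of power
`ℵ_{ω+1}` with degree of disjunction `ℵ₀` has no `ℵ₁`-transversal. -/
theorem result (hGCH : ∀ ν : Cardinal.{0}, ℵ₀ ≤ ν → 2 ^ ν = Order.succ ν) :
    (∀ κ lam : Cardinal.{0}, ℵ₀ ≤ κ → ℵ₀ ≤ lam → (HasTransversals κ lam ↔
      ¬ ∃ η : Cardinal.{0}, κ = Order.succ η ∧ lam < η ∧ η.ord.cof = lam.ord.cof ∧ Bad η lam)) ∧
    (∀ lam η : Cardinal.{0}, ℵ₀ ≤ lam → lam < η → AP η lam → ¬ Bad η lam) ∧
    (∀ lam : Cardinal.{0}, lam.IsRegular → ∃ (P : Type) (_ : Preorder P), Nonempty P ∧ ∀ p : P,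
      p ∈ ForcesGCH P ∧ p ∈ StaysRegular P lam ∧ p ∈ AllGood P lam) ∧
    ∀ κ : Cardinal.{0}, ℵ₀ < κ →
      (∃ W : Ultrafilter (Set (Order.succ (lamOf κ)).ord.ToType),
        IsNormalMeasure κ (Order.succ (lamOf κ)).ord.ToType W) →
      ∃ (P : Type) (_ : Preorder P), Nonempty P ∧ ∃ c : Cardinal.{0}, ∀ p : P,
        p ∈ ForcesGCH P ∧ p ∈ IsAlephOmegaSucc P c ∧ p ∈ NotGood P c c ℵ₀ :=
  ⟨fun _ _ hκ hl => hasTransversals_iff hGCH hκ hl, fun _ _ hl h1 h2 => h2.not_bad hGCH hl h1,
    fun _ hlam => Pool.Agent.H645.N.positive_all hGCH hlam,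
    fun _ hκ ⟨_, hW⟩ => Pool.Agent.H645.NG.negative_one hGCH hκ hW⟩

end Pool.Agent.Results.MP_23241f_lc.Undecided
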